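import Pool.Agent.K3h8.GG.Stm

/-!
# The brick GRO: a polynomial times a slower exponential
-/

set_option autoImplicit false
set_option maxHeartbeats 400000

namespace Pool.Agent.K3h59.GG

open Pool.Agent.K3h8.GG

lemma multichoose_le {b n : ℕ} (hb : 1 ≤ b) (hn : b ≤ n) : Nat.multichoose b n ≤ (2 * n) ^ b := by
  have h1 : (b + n - 1).choose n = (b + n - 1).choose (b - 1) := by
    rw [← Nat.choose_symm_of_eq_add]
    omega
  rw [Nat.multichoose_eq, h1]
  refine (Nat.choose_le_pow _ _).trans ?_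
  exact (Nat.pow_le_pow_left (by omega) _).trans (Nat.pow_le_pow_right (by omega) (Nat.sub_le _ _))

/-- The comparison of the growth. -/
theorem t_GRO : S_GRO := by
  intro d a β D hβ h0 h hf
  have hb0 : (0 : ℝ) < ((d ^ 2 : ℕ) : ℝ) := lt_of_le_of_lt h0 hβ
  have hpow : ∀ n, d ^ (2 * n) = (d ^ 2) ^ n := fun n => pow_mul d 2 n
  simp only [hpow] at h
  generalize d ^ 2 = b at *
  have hb1 : 1 ≤ b := by exact_mod_cast hb0
  have hr : |β / b| < 1 := by
    rw [abs_of_nonneg (div_nonneg h0 hb0.le), div_lt_one hb0]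
    exact hβ
  have ht := (tendsto_pow_const_mul_const_pow_of_abs_lt_one b hr).const_mul (D * 2 ^ b)
  rw [mul_zero] at ht
  have he := ht.eventually (gt_mem_nhds (one_pos : (0 : ℝ) < 1))
  obtain ⟨n, ⟨hn, hn1⟩, hn2⟩ :=
    ((hf.and_eventually he).and_eventually (Filter.eventually_ge_atTop b)).exists
  have h2 : (b : ℝ) ^ n ≤ (a n : ℝ) * (2 * n) ^ b := by
    have h3 := (h n).trans (Nat.mul_le_mul_left _ (multichoose_le hb1 hn2))
    exact_mod_cast h3
  have h3 : (a n : ℝ) * (2 * n) ^ b ≤ D * β ^ n * (2 * n) ^ b :=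
    mul_le_mul_of_nonneg_right hn (by positivity)
  have h4 : D * β ^ n * (2 * n) ^ b = (D * 2 ^ b * ((n : ℝ) ^ b * (β / b) ^ n)) * b ^ n := by
    rw [div_pow, mul_pow]
    field_simp
  have h5 : (D * 2 ^ b * ((n : ℝ) ^ b * (β / b) ^ n)) * (b : ℝ) ^ n < 1 * (b : ℝ) ^ n :=
    mul_lt_mul_of_pos_right hn1 (by positivity)
  linarith

end Pool.Agent.K3h59.GG
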